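import Pool.Agent.Helper64.DG.Growth2
import Pool.Agent.Helper35.BallT.Bound

/-!
MP_a068eb_an: let `n ≥ 3` and `r = ⌊(N - 1) / (n - 1)⌋`. If `r ≤ C(n - 1 + K, K)`, then the jet
determination number `k(n,N)` and the maximal degree `D(n,N)` of proper rational maps
`𝔹^n → 𝔹^N` satisfy `k(n,N) ≤ D(n,N) ≤ (n + K) r / n`; in particular
`D(n,N) ≤ (N - 1) / (n - 1) + c (N - 1)^(1 + 1/(n-1))` with
`c = (n - 2)!^(1/(n-1)) / (n (n - 1))`.
-/

namespace Pool.Agent.Results.MP_a068eb_an.DegreeGrowth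

open Helper38.Ball Metric Nat

/-- The inequality for families of polynomials. -/
theorem boundRatio (M : ℕ) : Helper64.DG.BoundRatio M :=
  fun _ _ _ _ hP htop hcop hK hnc hr => Helper35.BallT.bound_ratio hP htop hcop hK hnc hr

/-- For all `n ≥ 3`, with `r = ⌊(N - 1) / (n - 1)⌋`: if `r ≤ C(n - 1 + K, K)`, then
`k(n,N) ≤ D(n,N) ≤ (n + K) r / n`, where `k(n,N)` is the jet determination number and `D(n,N)` the
maximal degree of a proper rational map `𝔹^n → 𝔹^N`. In particular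
`D(n,N) ≤ (N - 1) / (n - 1) + (n - 2)!^(1/(n-1)) / (n (n - 1)) * (N - 1)^(1 + 1/(n-1))` for all
`N ≥ 1`. -/
theorem result (n : ℕ) (hn : 3 ≤ n) :
    (∀ N K : ℕ, (N - 1) / (n - 1) ≤ (n - 1 + K).choose K →
      jetNumber n N ≤ maxDegree n N ∧
      maxDegree n N ≤ (((n + K) * ((N - 1) / (n - 1)) / n : ℕ) : ℕ∞)) ∧
    (∀ N : ℕ, 1 ≤ N → ∃ D : ℕ, maxDegree n N ≤ D ∧ (D : ℝ) ≤
      ((N : ℝ) - 1) / ((n : ℝ) - 1) + ((n - 2)! : ℝ) ^ (1 / ((n : ℝ) - 1)) /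
        ((n : ℝ) * ((n : ℝ) - 1)) * ((N : ℝ) - 1) ^ (1 + 1 / ((n : ℝ) - 1))) := by
  obtain ⟨M, rfl⟩ : ∃ M, n = M + 2 := ⟨n - 2, by omega⟩
  have e1 : M + 2 - 1 = M + 1 := by omega
  have e2 : M + 2 - 2 = M := by omega
  have e3 : ((M + 2 : ℕ) : ℝ) - 1 = (M : ℝ) + 1 := by push_cast; ring
  have e4 : ((M + 2 : ℕ) : ℝ) = (M : ℝ) + 2 := by push_cast; ring
  rw [e1, e2]
  refine ⟨fun N K h => ⟨Helper64.DG.jet_le_maxDegree _ _,
    Helper64.DG.maxDegree_ratio (boundRatio M) h⟩, fun N hN => ?_⟩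
  rw [e3, e4]
  exact Helper64.DG.power_ratio (boundRatio M) hN

end Pool.Agent.Results.MP_a068eb_an.DegreeGrowth
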