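import Pool.Agent.Helper38.BallPrinciple
import Pool.Agent.Helper38.D.Proper
import Pool.Agent.Helper64.DG.Growth2
import Pool.Agent.Helper35.BallT.Bound

/-!
MP_a068eb_an: let `n ≥ 3`, `N ≥ n` and `r = ⌊(N - 1) / (n - 1)⌋`. If `N ≤ n (n - 1)`, or
`r ≤ C(n - 1 + K, K)` for some `K` with `2 (K + 1) (K + 2) ≤ n`, then the jet determination number
`k(n,N)` and the maximal degree of proper rational maps `𝔹^n → 𝔹^N` are both equal to `r`.
-/

namespace Pool.Agent.Results.MP_a068eb_an.ExactValue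

open Helper38.Ball Metric

theorem lower {n N : ℕ} (hn : 2 ≤ n) (hN : n ≤ N) :
    (((N - 1) / (n - 1) : ℕ) : ℕ∞) ≤ jetNumber n N := by
  unfold jetNumber
  refine le_iInf fun k => le_iInf fun hk => ?_
  rw [Nat.cast_le]
  obtain ⟨m, rfl⟩ : ∃ m, n = m + 1 := ⟨n - 1, by omega⟩
  have hm : 0 < m := by omega
  have h1 : 1 ≤ (N - 1) / m := by
    rw [Nat.one_le_div_iff hm]
    omega
  have h3 : (N - 1) / m * m + 1 ≤ N := by
    have := Nat.div_mul_le_self (N - 1) m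
    omega
  exact lower_whitney h1 h3 hk

theorem maxDegree_le {n N : ℕ} (hn : 3 ≤ n) (hN2 : N ≤ n * (n - 1)) :
    maxDegree n N ≤ (((N - 1) / (n - 1) : ℕ) : ℕ∞) := by
  obtain ⟨m, rfl⟩ : ∃ m, n = m + 1 := ⟨n - 1, by omega⟩
  unfold maxDegree
  refine iSup₂_le fun f hf => ?_
  have h := Helper38.BallD.degree_bound (m := m) (by omega) hf.1 hf.2 (by
    have e : (m + 1) * (m + 1 - 1) = m * (m + 1) := by
      rw [Nat.add_sub_cancel, mul_comm]
    rw [e] at hN2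
    omega)
  unfold degree
  exact iInf₂_le _ h

theorem maxDegree_le' {n N K : ℕ} (hn : 3 ≤ n) (hK : 2 * (K + 1) * (K + 2) ≤ n)
    (hN : (N - 1) / (n - 1) ≤ (n - 1 + K).choose K) :
    maxDegree n N ≤ (((N - 1) / (n - 1) : ℕ) : ℕ∞) := by
  obtain ⟨M, rfl⟩ : ∃ M, n = M + 2 := ⟨n - 2, by omega⟩
  have e1 : M + 2 - 1 = M + 1 := by omega
  rw [e1] at hN ⊢
  rw [← Nat.choose_symm_add] at hN
  exact Helper64.DG.maxDegree_le_of (by omega) fun P d hP htop hcop hK' hnc =>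
    Helper35.BallT.bound_exact hP htop hcop hK' hnc hN hK

/-- Let `n ≥ 3`, `N ≥ n` and `r = ⌊(N - 1) / (n - 1)⌋`. If `N ≤ n (n - 1)`, or
`r ≤ C(n - 1 + K, K)` for some `K` with `2 (K + 1) (K + 2) ≤ n`, then `k(n,N) = D(n,N) = r`, where
`k(n,N)` is the jet determination number and `D(n,N)` the maximal degree of a proper rational map
`𝔹^n → 𝔹^N`. -/
theorem result (n N : ℕ) (hn : 3 ≤ n) (hN : n ≤ N) (h : N ≤ n * (n - 1) ∨
      ∃ K : ℕ, 2 * (K + 1) * (K + 2) ≤ n ∧ (N - 1) / (n - 1) ≤ (n - 1 + K).choose K) :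
    jetNumber n N = maxDegree n N ∧ maxDegree n N = (((N - 1) / (n - 1) : ℕ) : ℕ∞) := by
  have h1 := lower (n := n) (N := N) (by omega) hN
  have h2 := Helper64.DG.jet_le_maxDegree n N
  have h3 : maxDegree n N ≤ (((N - 1) / (n - 1) : ℕ) : ℕ∞) := by
    rcases h with h | ⟨K, hK, h⟩
    · exact maxDegree_le hn h
    · exact maxDegree_le' hn hK h
  exact ⟨le_antisymm h2 (h3.trans h1), le_antisymm h3 (h1.trans h2)⟩

end Pool.Agent.Results.MP_a068eb_an.ExactValue
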