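import Pool.Agent.Helper38.BallPrinciple

/-!
MP_a068eb_an: two-sided bound for the jet determination number `k(n,N)` of proper rational maps
between balls: D'Angelo's conjectured degree bound `≤ k(n,N) ≤` maximal degree.
-/

namespace Pool.Agent.Results.MP_a068eb_an.JetDegreeBounds

open Helper38.Ball Metric

/-- D'Angelo's number: `2N - 3` if `n = 2` and the integer part of `(N-1)/(n-1)` if `n ≥ 3`. -/
def dAngelo (n N : ℕ) : ℕ := if n = 2 then 2 * N - 3 else (N - 1) / (n - 1)

theorem lower {n N : ℕ} (hn : 2 ≤ n) (hN : n ≤ N) : (dAngelo n N : ℕ∞) ≤ jetNumber n N := by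
  unfold jetNumber
  refine le_iInf fun k => le_iInf fun hk => ?_
  rw [Nat.cast_le]
  unfold dAngelo
  split_ifs with h2
  · subst h2
    have := lower_sharp (N := N) (r := N - 2) (by omega) hk
    omega
  · obtain ⟨m, rfl⟩ : ∃ m, n = m + 1 := ⟨n - 1, by omega⟩
    have hm : 0 < m := by omega
    have h1 : 1 ≤ (N - 1) / m := by
      rw [Nat.one_le_div_iff hm]
      omega
    have h3 : (N - 1) / m * m + 1 ≤ N := by
      have := Nat.div_mul_le_self (N - 1) m
      omega
    exact lower_whitney h1 h3 hk

theorem degreeLE_mono {n N : ℕ} {f : CSp n → CSp N} {d d' : ℕ} (h : d ≤ d') (hf : DegreeLE f d) :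
    DegreeLE f d' := by
  obtain ⟨p, q, hq, hqd, hpd, hpq⟩ := hf
  exact ⟨p, q, hq, hqd.trans h, fun j => (hpd j).trans h, hpq⟩

theorem degreeLE_of_degree_le {n N : ℕ} {f : CSp n → CSp N} {D : ℕ} (h : degree f ≤ D) :
    DegreeLE f D := by
  by_contra hcon
  have h1 : ((D + 1 : ℕ) : ℕ∞) ≤ degree f := by
    unfold degree
    refine le_iInf fun d => le_iInf fun hd => ?_
    rw [Nat.cast_le]
    by_contra hlt
    push Not at hlt
    exact hcon (degreeLE_mono (by omega) hd)
  have h2 := h1.trans h
  rw [Nat.cast_le] at h2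
  omega

theorem upper (n N : ℕ) : jetNumber n N ≤ maxDegree n N := by
  induction h : maxDegree n N using ENat.recTopCoe with
  | top => exact le_top
  | coe D =>
    have hd : Determined n N D := by
      apply determined_of_degree
      intro f hf hfr
      apply degreeLE_of_degree_le
      rw [← h]
      unfold maxDegree
      exact le_iSup₂_of_le f ⟨hf, hfr⟩ le_rfl
    unfold jetNumber
    exact iInf₂_le D hd

/-- For all `n ≥ 2` and `N ≥ n`, D'Angelo's number is at most `k(n,N)`, and `k(n,N)` is at most the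
maximal degree of proper rational maps. The upper bound holds map by map: a proper rational map of
degree at most `d` is determined by its `d`-jet at the origin among all holomorphic maps into the
closed ball. The lower bound comes from the principle that a component vanishing to order at least
`d` at the origin, but not identically, forces `k(n,N) ≥ d`. -/
theorem result (n N : ℕ) (hn : 2 ≤ n) (hN : n ≤ N) :
    (dAngelo n N : ℕ∞) ≤ jetNumber n N ∧ jetNumber n N ≤ maxDegree n N ∧
    (∀ (d : ℕ) (f g : CSp n → CSp N), IsProper f → DegreeLE f d →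
      AnalyticOnNhd ℂ g (ball 0 1) → (∀ z ∈ ball (0 : CSp n) 1, ‖g z‖ ≤ 1) → SameJet d f g →
      Set.EqOn g f (ball 0 1)) ∧
    (∀ (d : ℕ) (f : CSp n → CSp N), IsProper f → IsRational f →
      (∃ j : Fin N, (∀ m < d, iteratedFDeriv ℂ m (fun z => f z j) 0 = 0) ∧
        ∃ z ∈ ball (0 : CSp n) 1, f z j ≠ 0) → (d : ℕ∞) ≤ jetNumber n N) := by
  refine ⟨lower hn hN, upper n N, fun d f g hf hfd hg hg1 hj => eqOn_of_degreeLE hf hfd hg hg1 hj,
    fun d f hf hfr hex => ?_⟩
  obtain ⟨j, hv, hne⟩ := hex
  unfold jetNumber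
  refine le_iInf fun k => le_iInf fun hk => ?_
  rw [Nat.cast_le]
  exact lower_of_order hf hfr hv hne hk

end Pool.Agent.Results.MP_a068eb_an.JetDegreeBounds
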